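import Pool.Agent.H68.LCS.Targets

/-!
# Row A_CSM of lpq_modules: the set of the canonical points
-/

set_option autoImplicit false

open Set Filter Topology
open scoped Pointwise

namespace Pool.Agent.H37.LCS

open Pool.Agent.H93.CP Pool.Agent.H7.LP Pool.Agent.H7.LQ Pool.Agent.H68.LCS

/-- row A_CSM -/
theorem pf_CSM (h1 : T_LCO) (h2 : T_YEX) (h3 : T_YME) (h4 : T_SME) : T_CSM := by
  intro Γ F _ _ _ _ _ _ _ _ _ _ _ D B
  have : Nonempty Γ := ⟨1⟩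
  set h : ℕ → Γ := TopologicalSpace.denseSeq Γ with hh
  have key : ∀ (t : ℕ) (γ : Γ) (y : F), γ • y ∈ YY D B t →
      ∃ i, h i • y ∈ YY D B t ∧ ss D B t (h i • y) = ss D B t (γ • y) := by
    intro t γ y hy
    obtain ⟨-, -, O, hO, hO'⟩ := h1 Γ F D B t (γ • y) hy
    have h5 : {a : Γ | a * γ⁻¹ ∈ O} ∈ 𝓝 γ := by
      have h6 : Tendsto (fun a : Γ => a * γ⁻¹) (𝓝 γ) (𝓝 (γ * γ⁻¹)) :=
        (continuous_mul_const γ⁻¹).tendsto γ
      rw [mul_inv_cancel] at h6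
      exact h6 hO
    obtain ⟨V, hV, hVo, hVγ⟩ := mem_nhds_iff.1 h5
    obtain ⟨a, haV, ⟨i, rfl⟩⟩ := Dense.inter_open_nonempty
      (TopologicalSpace.denseRange_denseSeq Γ) V hVo ⟨γ, hVγ⟩
    have h7 := hO' (h i * γ⁻¹) (hV haV)
    have h8 : (h i * γ⁻¹) • (γ • y) = h i • y := by rw [← mul_smul, inv_mul_cancel_right]
    rw [h8] at h7
    exact ⟨i, h7⟩
  refine ⟨?_, ?_, h, ?_, ?_⟩
  · have e1 : CanS D B = ⋃ t : ℕ, ⋃ i : ℕ,
        {z : F | h i • z ∈ YY D B t ∧ ss D B t (h i • z) = z} := by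
      ext z
      simp only [mem_iUnion]
      constructor
      · rintro ⟨t, γ, hz, hz'⟩
        obtain ⟨i, hi, hi'⟩ := key t γ z hz
        exact ⟨t, i, hi, hi'.trans hz'⟩
      · rintro ⟨t, i, hi, hi'⟩
        exact ⟨t, h i, hi, hi'⟩
    rw [e1]
    refine MeasurableSet.iUnion fun t => MeasurableSet.iUnion fun i => ?_
    have hm : Measurable fun z : F => h i • z := (continuous_const_smul (h i)).measurable
    exact (hm (h3 Γ F D B t)).inter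
      (measurableSet_eq_fun ((h4 Γ F D B t).comp hm) measurable_id)
  · intro t γ y hy
    obtain ⟨-, ⟨γ', hγ'⟩, -⟩ := h1 Γ F D B t (γ • y) hy
    refine ⟨t, γ'⁻¹, ?_, ?_⟩
    · rw [hγ', inv_smul_smul]; exact hy
    · rw [hγ', inv_smul_smul]; exact hγ'
  · intro y
    obtain ⟨t, ht⟩ := h2 Γ F D B y
    obtain ⟨i, hi, -⟩ := key t 1 y (by rwa [one_smul])
    exact ⟨t, i, hi⟩
  · rintro y γ ⟨t, a, ha, ha'⟩
    obtain ⟨i, hi, hi'⟩ := key t (a * γ) y (by rwa [mul_smul])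
    refine ⟨t, i, hi, ?_⟩
    rw [hi', mul_smul]
    exact ha'

end Pool.Agent.H37.LCS
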