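import Pool.Agent.H68.LCS.Targets

/-!
# Row A_KEQ of lpq_modules: the compact pieces of the orbit agree
-/

set_option autoImplicit false

open Set Filter Topology
open scoped Pointwise

namespace Pool.Agent.H37.LCS

open Pool.Agent.H93.CP Pool.Agent.H7.LP Pool.Agent.H7.LQ Pool.Agent.H68.LCS

private theorem keq_inv {Γ F : Type} [Group Γ] [TopologicalSpace Γ] [MulAction Γ F]
    (D : LCd Γ F) {c : Γ} (h : c ∈ D.C) : c⁻¹ ∈ D.C := by
  unfold LCd.C at h ⊢
  rcases h with (h | h) | h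
  · exact Or.inl (Or.inr (Set.inv_mem_inv.2 h))
  · exact Or.inl (Or.inl h)
  · rw [Set.mem_singleton_iff] at h
    rw [h, inv_one]
    exact Or.inr rfl

private theorem keq_one {Γ F : Type} [Group Γ] [TopologicalSpace Γ] [MulAction Γ F]
    (D : LCd Γ F) : (1 : Γ) ∈ D.C := Or.inr rfl

/-- row A_KEQ -/
theorem pf_KEQ : T_KEQ := by
  intro Γ F _ _ _ _ D B t y c hc hy hy'
  ext z
  constructor
  · rintro ⟨hz, h, hh, rfl⟩
    refine ⟨hz, ?_⟩
    obtain ⟨c', hc', e⟩ := hy.2 (h * c) (Set.mul_mem_mul hh hc) (by rwa [mul_smul])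
    refine ⟨c', ?_, ?_⟩
    · have := Set.mul_mem_mul hc' (keq_one D)
      rwa [mul_one] at this
    · rw [← mul_smul]; exact e
  · rintro ⟨hz, h, hh, rfl⟩
    refine ⟨hz, ?_⟩
    have e1 : (h * c⁻¹) • (c • y) = h • y := by rw [← mul_smul, inv_mul_cancel_right]
    obtain ⟨c', hc', e⟩ := hy'.2 (h * c⁻¹) (Set.mul_mem_mul hh (keq_inv D hc)) (by rwa [e1])
    refine ⟨c', ?_, ?_⟩
    · have := Set.mul_mem_mul hc' (keq_one D)
      rwa [mul_one] at this
    · rw [← e1]; exact e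

end Pool.Agent.H37.LCS
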